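import Pool.Agent.H82.NTB.Stmts

set_option autoImplicit false

namespace Pool.NTB

open Pool.NET

private theorem xdr_mul {S a b : ℤ} (hS : 0 < S) (hab : a < b) : S * a + S ≤ S * b := by
  nlinarith

theorem xdr_thm : XDF Ke.R := by
  intro p e g e' g' N N' h h' u hp hp' hH hH' hU hU' hd v w hk hw h1 h2 h3 h4
  obtain ⟨q0, gq, gW, We, eM, MS⟩ := hp
  obtain ⟨-, gq', gW', We', eM', -⟩ := hp'
  obtain ⟨⟨c, r⟩, k⟩ := w
  obtain ⟨x, y⟩ := v
  have hS : 0 < p.S := by omega
  have hc1 : c < x → p.S * c + p.S ≤ p.S * x := xdr_mul hS
  have hc2 : x < c → p.S * x + p.S ≤ p.S * c := xdr_mul hS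
  have hr1 : r < y → p.S * r + p.S ≤ p.S * y := xdr_mul hS
  have hr2 : y < r → p.S * y + p.S ≤ p.S * r := xdr_mul hS
  simp only [lo, hi, nx2, fx] at h1 h2
  cases k
  case NW =>
    exfalso
    rcases lt_trichotomy c x with hc | hc | hc
    · have := hc1 hc; simp only at h1 h2; omega
    · subst hc; simp only at h1 h2; omega
    · have := hc2 hc; simp only at h1 h2; omega
  case SE =>
    exfalso
    rcases lt_trichotomy c x with hc | hc | hc
    · have := hc1 hc; simp only at h1 h2; omega
    · subst hc; simp only at h1 h2; omega
    · have := hc2 hc; simp only at h1 h2; omega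
  case T =>
    exfalso
    rcases lt_trichotomy c x with hc | hc | hc
    · have := hc1 hc; simp only at h1 h2; omega
    · subst hc; simp only at h1 h2; omega
    · have := hc2 hc; simp only at h1 h2; omega
  case B =>
    exfalso
    rcases lt_trichotomy c x with hc | hc | hc
    · have := hc1 hc; simp only at h1 h2; omega
    · subst hc; simp only at h1 h2; omega
    · have := hc2 hc; simp only at h1 h2; omega
  case L =>
    exfalso
    rcases lt_trichotomy c x with hc | hc | hc
    · have := hc1 hc; simp only at h1 h2; omega
    · subst hc; simp only at h1 h2; omega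
    · have := hc2 hc; simp only at h1 h2; omega
  case J3 =>
    exfalso
    rcases lt_trichotomy c x with hc | hc | hc
    · have := hc1 hc; simp only at h1 h2; omega
    · subst hc; simp only at h1 h2; omega
    · have := hc2 hc; simp only at h1 h2; omega
  case J4 =>
    exfalso
    rcases lt_trichotomy c x with hc | hc | hc
    · have := hc1 hc; simp only at h1 h2; omega
    · subst hc; simp only at h1 h2; omega
    · have := hc2 hc; simp only at h1 h2; omega
  case J1 =>
    exfalso
    simp only [jl, jh, fy] at h3 h4
    rcases lt_trichotomy r y with hc | hc | hc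
    · have := hr1 hc; omega
    · subst hc; omega
    · have := hr2 hc; omega
  case J2 =>
    exfalso
    simp only [jl, jh, fy] at h3 h4
    rcases lt_trichotomy r y with hc | hc | hc
    · have := hr1 hc; omega
    · subst hc; omega
    · have := hr2 hc; omega
  case R =>
    simp only [jl, jh, fy] at h3 h4
    simp only at h1 h2
    have ec : c = x := by
      rcases lt_trichotomy c x with hc | hc | hc
      · have := hc1 hc; exfalso; omega
      · exact hc
      · have := hc2 hc; exfalso; omega
    have er : r = y := by
      rcases lt_trichotomy r y with hc | hc | hc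
      · have := hr1 hc; exfalso; omega
      · exact hc
      · have := hr2 hc; exfalso; omega
    subst ec er
    have hn : 4 * e ≤ e' ∧ g' + 10 * p.q ≤ g := by
      rcases hd with hd | hd
      · exact hd
      · exfalso; omega
    refine ⟨hn, ⟨(c, r), hk.1, hw.1⟩, ?_, ?_⟩
    · simp only [prM, fx]
      obtain ⟨-, hn2⟩ := hn
      rw [abs_of_nonpos (by omega), abs_of_nonneg (by omega)]
      omega
    · intro t
      simp only [prW, pv2, fy]
      rw [abs_of_nonneg (by omega), abs_of_nonpos (by omega)]
      omega

end Pool.NTB
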